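import Pool.Agent.H375R3.FP.Stmts

set_option autoImplicit false
open Finset

namespace H375.FP
namespace Ind633

theorem pset_nonempty {r : ℕ} (A : Fin r → Finset ℕ) (h : ∀ i, (A i).Nonempty) :
    (pset A).Nonempty := by
  unfold pset
  exact (Fintype.piFinset_nonempty.mpr h).image _

theorem pset_mono {r : ℕ} {A A' : Fin r → Finset ℕ} (h : ∀ i, A i ⊆ A' i) :
    pset A ⊆ pset A' := by
  unfold pset
  exact Finset.image_subset_image (Fintype.piFinset_subset _ _ h)

theorem fact_prod {r : ℕ} {A : Fin r → Finset ℕ} (hA : ∀ i, ∀ a ∈ A i, 1 ≤ a) (p : ℕ) {y : ℕ}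
    (hy : y ∈ pset A) :
    ∃ f : Fin r → ℕ, (∀ i, f i ∈ A i) ∧ y.factorization p = ∑ i, (f i).factorization p := by
  unfold pset at hy
  obtain ⟨f, hf, rfl⟩ := Finset.mem_image.mp hy
  rw [Fintype.mem_piFinset] at hf
  refine ⟨f, hf, ?_⟩
  rw [Nat.factorization_prod (fun i _ => (Nat.one_le_iff_ne_zero.mp (hA i _ (hf i))))]
  simp [Finsupp.finset_sum_apply]

noncomputable def cc (w : ℕ) (R : Finset ℕ → ℝ) (A : Finset ℕ) : ℝ :=
  ((A.card : ℝ) ^ (w + 1)) / R A ^ w

noncomputable def PP (w r : ℕ) (R : Finset ℕ → ℝ) (A : Finset ℕ) : ℝ :=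
  (cc w R A) ^ ((1 : ℝ) / r)

theorem cc_pos {w : ℕ} {R : Finset ℕ → ℝ} {A : Finset ℕ} (hA : A.Nonempty) (hR : 1 ≤ R A) :
    0 < cc w R A := by
  unfold cc
  have : (0 : ℝ) < A.card := by exact_mod_cast hA.card_pos
  have h2 : 0 < R A := by linarith
  positivity

theorem PP_pos {w r : ℕ} {R : Finset ℕ → ℝ} {A : Finset ℕ} (hA : A.Nonempty) (hR : 1 ≤ R A) :
    0 < PP w r R A := Real.rpow_pos_of_pos (cc_pos hA hR) _

theorem PP_pow {w r : ℕ} {R : Finset ℕ → ℝ} {A : Finset ℕ} (hr : r ≠ 0) (hA : A.Nonempty)
    (hR : 1 ≤ R A) : PP w r R A ^ r = cc w R A := by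
  unfold PP
  rw [one_div]
  exact Real.rpow_inv_natCast_pow (cc_pos hA hR).le hr

theorem one_set (hphi : TaskPhi) {w r : ℕ} {C D : ℝ} {R : Finset ℕ → ℝ} (hC : 1 ≤ C)
    (hCD : 2 * C ≤ D) (hD : 16 ≤ D) (hw : 1 ≤ w) (hr : D ^ w ≤ r)
    (hR1 : ∀ A : Finset ℕ, A.Nonempty → 1 ≤ R A)
    (hR2 : ∀ A A' : Finset ℕ, A'.Nonempty → A' ⊆ A → R A' ≤ R A)
    {A₀ A₁ : Finset ℕ} (h0 : A₀.Nonempty) (h1 : A₁.Nonempty) (hdisj : Disjoint A₀ A₁)
    (hR3 : R A₁ + R A₀ / C ≤ R (A₀ ∪ A₁)) :
    1 ≤ cc w R A₀ / cc w R (A₀ ∪ A₁) + PP w r R A₁ / PP w r R (A₀ ∪ A₁) := by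
  have hAne : (A₀ ∪ A₁).Nonempty := h0.mono Finset.subset_union_left
  set A := A₀ ∪ A₁ with hA
  have hcard : (A.card : ℝ) = A₀.card + A₁.card := by
    rw [hA, Finset.card_union_of_disjoint hdisj]; push_cast; ring
  have c0 : (0 : ℝ) < A₀.card := by exact_mod_cast h0.card_pos
  have c1 : (0 : ℝ) < A₁.card := by exact_mod_cast h1.card_pos
  have cA : (0 : ℝ) < A.card := by rw [hcard]; positivity
  have r0 : 0 < R A₀ := by linarith [hR1 A₀ h0]
  have r1 : 0 < R A₁ := by linarith [hR1 A₁ h1]
  have rA : 0 < R A := by linarith [hR1 A hAne]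
  have hCp : 0 < C := by linarith
  have hrpos : r ≠ 0 := by
    rintro rfl
    have : 0 < D ^ w := by positivity
    simp at hr
    linarith
  set t : ℝ := A₀.card / A.card with ht
  set x : ℝ := R A₀ / R A with hx
  set y : ℝ := R A₁ / R A with hy
  have ht0 : 0 < t := by positivity
  have ht1 : t < 1 := by rw [ht, div_lt_one cA, hcard]; linarith
  have h1t : 1 - t = A₁.card / A.card := by
    rw [ht]; field_simp; rw [hcard]; ring
  have hx0 : 0 < x := by positivity
  have hx1 : x ≤ 1 := by
    rw [hx, div_le_one rA]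
    exact hR2 A A₀ h0 Finset.subset_union_left
  have hy0 : 0 < y := by positivity
  have hyx : y ≤ 1 - x / C := by
    have : y + x / C ≤ 1 := by
      have e : y + x / C = (R A₁ + R A₀ / C) / R A := by
        rw [hy, hx]; field_simp
      rw [e, div_le_one rA]
      exact hR3
    linarith
  have hs : cc w R A₀ / cc w R A = t ^ (w + 1) / x ^ w := by
    unfold cc
    rw [ht, hx, div_pow, div_pow]
    field_simp
  have hs1 : cc w R A₁ / cc w R A = (1 - t) ^ (w + 1) / y ^ w := by
    unfold cc
    rw [h1t, hy, div_pow, div_pow]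
    field_simp
  have hPpos : 0 < PP w r R A₁ / PP w r R A :=
    div_pos (PP_pos h1 (hR1 _ h1)) (PP_pos hAne (hR1 _ hAne))
  by_cases hcase : 1 ≤ cc w R A₀ / cc w R A
  · linarith
  · push Not at hcase
    have hle : t ^ (w + 1) ≤ x ^ w := by
      rw [hs, div_lt_one (by positivity)] at hcase
      exact hcase.le
    have hph := hphi C D t x w r hC hCD hD hw hr ht0 ht1 hx0 hx1 hle
    rw [← hs] at hph
    have h5 : (1 - cc w R A₀ / cc w R A) ^ r ≤ (PP w r R A₁ / PP w r R A) ^ r := by
      rw [div_pow, PP_pow hrpos h1 (hR1 _ h1), PP_pow hrpos hAne (hR1 _ hAne), hs1]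
      rw [le_div_iff₀ (by positivity)]
      have h6 : y ^ w ≤ (1 - x / C) ^ w := pow_le_pow_left₀ hy0.le hyx w
      have h7 : 0 ≤ (1 - cc w R A₀ / cc w R A) ^ r := pow_nonneg (by linarith) _
      nlinarith
    have h8 : 1 - cc w R A₀ / cc w R A ≤ PP w r R A₁ / PP w r R A :=
      le_of_pow_le_pow_left₀ hrpos hPpos.le h5
    linarith

theorem main (hphi : TaskPhi) {B w r : ℕ} {C D : ℝ} {R : Finset ℕ → ℝ} (hC : 1 ≤ C)
    (hCD : 2 * C ≤ D) (hD : 16 ≤ D) (hw : 1 ≤ w) (hr : D ^ w ≤ r)
    (hR1 : ∀ A : Finset ℕ, A.Nonempty → 1 ≤ R A)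
    (hR2 : ∀ A A' : Finset ℕ, A'.Nonempty → A' ⊆ A → R A' ≤ R A)
    (hR3 : ∀ (m : ℕ) (A₀ A₁ : Finset ℕ), A₀.Nonempty → A₁.Nonempty →
      (∀ a ∈ A₀ ∪ A₁, 1 ≤ a ∧ a ≤ B) → (∀ a ∈ A₁, m ∣ a) → (∀ a ∈ A₀, ¬ m ∣ a) →
      R A₁ + R A₀ / C ≤ R (A₀ ∪ A₁)) :
    ∀ n : ℕ, ∀ A : Fin r → Finset ℕ, ∑ i, (A i).card = n → (∀ i, (A i).Nonempty) →
      (∀ i, ∀ a ∈ A i, 1 ≤ a ∧ a ≤ B) →
      ∏ i, PP w r R (A i) ≤ ((pset A).card : ℝ) := by
  have hrpos : r ≠ 0 := by
    rintro rfl
    have : 0 < D ^ w := by positivity
    simp at hr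
    linarith
  intro n
  induction n using Nat.strong_induction_on with
  | _ n ih =>
  intro A hsum hne hB
  by_cases hone : ∀ i, (A i).card = 1
  · have h1 : ∏ i, PP w r R (A i) ≤ 1 := by
      apply Finset.prod_le_one
      · intro i _
        exact (PP_pos (hne i) (hR1 _ (hne i))).le
      · intro i _
        have hc : cc w R (A i) ≤ 1 := by
          unfold cc
          rw [hone i]
          have : 1 ≤ R (A i) ^ w := one_le_pow₀ (hR1 _ (hne i))
          rw [div_le_one (by linarith)]
          simpa using this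
        exact Real.rpow_le_one (cc_pos (hne i) (hR1 _ (hne i))).le hc (by positivity)
    have h2 : 1 ≤ ((pset A).card : ℝ) := by
      exact_mod_cast (pset_nonempty A hne).card_pos
    linarith
  · push Not at hone
    obtain ⟨i₀, hi₀⟩ := hone
    have hcard2 : 1 < (A i₀).card := by
      have := (hne i₀).card_pos
      omega
    obtain ⟨a, ha, a', ha', haa⟩ := Finset.one_lt_card.mp hcard2
    have hex : ∃ p, a.factorization p ≠ a'.factorization p := by
      by_contra hcon
      push Not at hcon
      apply haa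
      exact Nat.eq_of_factorization_eq (by have := (hB i₀ a ha).1; omega)
        (by have := (hB i₀ a' ha').1; omega) hcon
    obtain ⟨p, hp⟩ := hex
    have hpp : p.Prime := by
      by_contra hnp
      apply hp
      rw [Nat.factorization_eq_zero_of_not_prime _ hnp, Nat.factorization_eq_zero_of_not_prime _ hnp]
    -- minimal valuations
    have hv : ∀ i, ∃ v : ℕ, (∃ b ∈ A i, b.factorization p = v) ∧
        ∀ b ∈ A i, v ≤ b.factorization p := by
      intro i
      obtain ⟨b, hb, hmin⟩ := Finset.exists_min_image (A i) (fun b => b.factorization p) (hne i)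
      exact ⟨b.factorization p, ⟨b, hb, rfl⟩, hmin⟩
    choose v hv1 hv2 using hv
    let A0 : Fin r → Finset ℕ := fun i => (A i).filter (fun b => b.factorization p = v i)
    let A1 : Fin r → Finset ℕ := fun i => (A i).filter (fun b => ¬ b.factorization p = v i)
    have hA0ne : ∀ i, (A0 i).Nonempty := by
      intro i
      obtain ⟨b, hb, hb2⟩ := hv1 i
      exact ⟨b, Finset.mem_filter.mpr ⟨hb, hb2⟩⟩
    have hA0sub : ∀ i, A0 i ⊆ A i := fun i => Finset.filter_subset _ _
    have hA1sub : ∀ i, A1 i ⊆ A i := fun i => Finset.filter_subset _ _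
    have hunion : ∀ i, A0 i ∪ A1 i = A i := fun i => Finset.filter_union_filter_not_eq _ _
    have hdisj : ∀ i, Disjoint (A0 i) (A1 i) := fun i => Finset.disjoint_filter_filter_not _ _ _
    have hcards : ∀ i, (A i).card = (A0 i).card + (A1 i).card := by
      intro i
      rw [← Finset.card_union_of_disjoint (hdisj i), hunion i]
    have hA1v : ∀ i, ∀ b ∈ A1 i, v i < b.factorization p := by
      intro i b hb
      obtain ⟨hb1, hb2⟩ := Finset.mem_filter.mp hb
      exact lt_of_le_of_ne (hv2 i b hb1) (fun h => hb2 h.symm)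
    have hJ : (A1 i₀).Nonempty := by
      by_cases h : a.factorization p = v i₀
      · refine ⟨a', Finset.mem_filter.mpr ⟨ha', ?_⟩⟩
        intro h'
        exact hp (h.trans h'.symm)
      · exact ⟨a, Finset.mem_filter.mpr ⟨ha, h⟩⟩
    -- one set inequality
    have hos : ∀ i, (A1 i).Nonempty →
        1 ≤ cc w R (A0 i) / cc w R (A i) + PP w r R (A1 i) / PP w r R (A i) := by
      intro i hi
      have h3 := hR3 (p ^ (v i + 1)) (A0 i) (A1 i) (hA0ne i) hi
        (by rw [hunion i]; exact hB i)
        (by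
          intro b hb
          rw [hpp.pow_dvd_iff_le_factorization (by have := (hB i b (hA1sub i hb)).1; omega)]
          exact hA1v i b hb)
        (by
          intro b hb
          rw [hpp.pow_dvd_iff_le_factorization (by have := (hB i b (hA0sub i hb)).1; omega)]
          have := (Finset.mem_filter.mp hb).2
          omega)
      have := one_set hphi hC hCD hD hw hr hR1 hR2 (hA0ne i) hi (hdisj i) h3
      rw [hunion i] at this
      exact this
    -- the maximal ratio
    have hJne : (Finset.univ.filter (fun i => (A1 i).Nonempty)).Nonempty :=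
      ⟨i₀, by simp [hJ]⟩
    obtain ⟨j, hj, hjmax⟩ := Finset.exists_max_image
      (Finset.univ.filter (fun i => (A1 i).Nonempty))
      (fun i => PP w r R (A1 i) / PP w r R (A i)) hJne
    have hjne : (A1 j).Nonempty := (Finset.mem_filter.mp hj).2
    set μ : ℝ := PP w r R (A1 j) / PP w r R (A j) with hμ
    have hPApos : ∀ i, 0 < PP w r R (A i) := fun i => PP_pos (hne i) (hR1 _ (hne i))
    have hPA0pos : ∀ i, 0 < PP w r R (A0 i) := fun i => PP_pos (hA0ne i) (hR1 _ (hA0ne i))
    -- cardinalities
    have hsub0 : pset A0 ⊆ pset A := pset_mono hA0sub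
    let A' : Fin r → Finset ℕ := Function.update A j (A1 j)
    have hA'sub : ∀ i, A' i ⊆ A i := by
      intro i
      by_cases h : i = j
      · subst h
        simp only [A', Function.update_self]
        exact hA1sub i
      · simp only [A', Function.update_of_ne h]
        exact Finset.Subset.refl _
    have hA'ne : ∀ i, (A' i).Nonempty := by
      intro i
      by_cases h : i = j
      · subst h
        simp only [A', Function.update_self]
        exact hjne
      · simp only [A', Function.update_of_ne h]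
        exact hne i
    have hsub1 : pset A' ⊆ pset A := pset_mono hA'sub
    have hdis : Disjoint (pset A0) (pset A') := by
      rw [Finset.disjoint_left]
      intro y hy0 hy1
      obtain ⟨f, hf, hfy⟩ := fact_prod (fun i b hb => (hB i b (hA0sub i hb)).1) p hy0
      obtain ⟨g, hg, hgy⟩ := fact_prod (fun i b hb => (hB i b (hA'sub i hb)).1) p hy1
      have e1 : ∑ i, (f i).factorization p = ∑ i, v i := by
        apply Finset.sum_congr rfl
        intro i _
        exact (Finset.mem_filter.mp (hf i)).2
      have e2 : ∑ i, v i < ∑ i, (g i).factorization p := by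
        apply Finset.sum_lt_sum
        · intro i _
          exact hv2 i _ (hA'sub i (hg i))
        · refine ⟨j, Finset.mem_univ _, ?_⟩
          have := hg j
          simp only [A', Function.update_self] at this
          exact hA1v j _ this
      omega
    have hcardge : ((pset A0).card : ℝ) + (pset A').card ≤ (pset A).card := by
      have : (pset A0 ∪ pset A').card ≤ (pset A).card :=
        Finset.card_le_card (Finset.union_subset hsub0 hsub1)
      rw [Finset.card_union_of_disjoint hdis] at this
      exact_mod_cast this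
    have ih0 : ∏ i, PP w r R (A0 i) ≤ ((pset A0).card : ℝ) := by
      apply ih (∑ i, (A0 i).card) _ A0 rfl hA0ne (fun i b hb => hB i b (hA0sub i hb))
      rw [← hsum]
      apply Finset.sum_lt_sum
      · intro i _
        exact Finset.card_le_card (hA0sub i)
      · refine ⟨i₀, Finset.mem_univ _, ?_⟩
        have := hcards i₀
        have := hJ.card_pos
        omega
    have ih1 : ∏ i, PP w r R (A' i) ≤ ((pset A').card : ℝ) := by
      apply ih (∑ i, (A' i).card) _ A' rfl hA'ne (fun i b hb => hB i b (hA'sub i hb))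
      rw [← hsum]
      apply Finset.sum_lt_sum
      · intro i _
        exact Finset.card_le_card (hA'sub i)
      · refine ⟨j, Finset.mem_univ _, ?_⟩
        simp only [A', Function.update_self]
        have := hcards j
        have := (hA0ne j).card_pos
        omega
    have e1 : ∏ i, PP w r R (A' i) = μ * ∏ i, PP w r R (A i) := by
      rw [← Finset.mul_prod_erase Finset.univ (fun i => PP w r R (A' i)) (Finset.mem_univ j),
        ← Finset.mul_prod_erase Finset.univ (fun i => PP w r R (A i)) (Finset.mem_univ j)]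
      have e3 : ∏ i ∈ Finset.univ.erase j, PP w r R (A' i)
          = ∏ i ∈ Finset.univ.erase j, PP w r R (A i) := by
        apply Finset.prod_congr rfl
        intro i hi
        have h := (Finset.mem_erase.mp hi).1
        simp only [A', Function.update_of_ne h]
      rw [e3]
      simp only [A', Function.update_self]
      rw [hμ]
      have := (hPApos j).ne'
      field_simp
    have hμpos : 0 < μ := div_pos (PP_pos hjne (hR1 _ hjne)) (hPApos j)
    have hprodpos : 0 < ∏ i, PP w r R (A i) := Finset.prod_pos (fun i _ => hPApos i)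
    have hprod0pos : 0 < ∏ i, PP w r R (A0 i) := Finset.prod_pos (fun i _ => hPA0pos i)
    have e2 : (1 - μ) * ∏ i, PP w r R (A i) ≤ ∏ i, PP w r R (A0 i) := by
      by_cases hμ1 : 1 ≤ μ
      · have : (1 - μ) * ∏ i, PP w r R (A i) ≤ 0 :=
          mul_nonpos_of_nonpos_of_nonneg (by linarith) hprodpos.le
        linarith
      · push Not at hμ1
        set q : ℝ := (1 - μ) ^ ((1 : ℝ) / r) with hq
        have hq0 : 0 ≤ q := Real.rpow_nonneg (by linarith) _
        have hqr : q ^ r = 1 - μ := by
          rw [hq, one_div]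
          exact Real.rpow_inv_natCast_pow (by linarith) hrpos
        have hq1 : q ≤ 1 := Real.rpow_le_one (by linarith) (by linarith) (by positivity)
        have hterm : ∀ i, q * PP w r R (A i) ≤ PP w r R (A0 i) := by
          intro i
          by_cases hi : (A1 i).Nonempty
          · have h4 := hos i hi
            have h5 := hjmax i (by simp [hi])
            have h6 : 1 - μ ≤ cc w R (A0 i) / cc w R (A i) := by linarith
            have h7 : (q * PP w r R (A i)) ^ r ≤ (PP w r R (A0 i)) ^ r := by
              rw [mul_pow, hqr, PP_pow hrpos (hne i) (hR1 _ (hne i)),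
                PP_pow hrpos (hA0ne i) (hR1 _ (hA0ne i))]
              rw [le_div_iff₀ (cc_pos (hne i) (hR1 _ (hne i)))] at h6
              exact h6
            exact le_of_pow_le_pow_left₀ hrpos (hPA0pos i).le h7
          · rw [Finset.not_nonempty_iff_eq_empty] at hi
            have h8 : A0 i = A i := by
              have := hunion i
              rw [hi, Finset.union_empty] at this
              exact this
            rw [h8]
            have := hPApos i
            nlinarith
        have h9 : ∏ i, (q * PP w r R (A i)) ≤ ∏ i, PP w r R (A0 i) := by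
          apply Finset.prod_le_prod
          · intro i _
            exact mul_nonneg hq0 (hPApos i).le
          · intro i _
            exact hterm i
        rw [Finset.prod_mul_distrib, Finset.prod_const, Finset.card_univ, Fintype.card_fin,
          hqr] at h9
        exact h9
    nlinarith

end Ind633

theorem ind (hphi : TaskPhi) : TaskInd := by
  intro B w r C D R hC hCD hD hw hr hR1 hR2 hR3 A hne hB
  have hrpos : r ≠ 0 := by
    rintro rfl
    have : 0 < D ^ w := by positivity
    simp at hr
    linarith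
  have h := Ind633.main (B := B) hphi hC hCD hD hw hr hR1 hR2 hR3 _ A rfl hne hB
  have h1 : ∏ i, (((A i).card : ℝ) ^ (w + 1) / R (A i) ^ w)
      = (∏ i, Ind633.PP w r R (A i)) ^ r := by
    rw [← Finset.prod_pow]
    apply Finset.prod_congr rfl
    intro i _
    rw [Ind633.PP_pow hrpos (hne i) (hR1 _ (hne i))]
    rfl
  rw [h1]
  apply pow_le_pow_left₀ _ h
  exact Finset.prod_nonneg (fun i _ => (Ind633.PP_pos (hne i) (hR1 _ (hne i))).le)

end H375.FP
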